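import Pool.Agent.H34.GU.Targets1

/-!
Row CNU of the board gu: the matrices with the same value at a primitive vector and with bounded
rows (after Pool/Agent/H1/GZ/CNQ.lean).
-/

set_option autoImplicit false

namespace Pool.Agent.H1.GU

open Pool.Agent.H34.GM Pool.Agent.H34.GZ Pool.Agent.H34.GU

private lemma rowN_eq' {m : ℕ} (v : Fin m → ℝ) :
    rowN v = ‖(WithLp.toLp 2 v : EuclideanSpace ℝ (Fin m))‖ := by
  rw [EuclideanSpace.norm_eq]
  unfold rowN
  simp [sq_abs]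

private lemma rowN_sub' {m : ℕ} (u v : Fin m → ℝ) : rowN (u - v) ≤ rowN u + rowN v := by
  rw [rowN_eq', rowN_eq', rowN_eq', WithLp.toLp_sub]
  exact norm_sub_le _ _

private lemma rowN_nonneg' {m : ℕ} (v : Fin m → ℝ) : 0 ≤ rowN v := Real.sqrt_nonneg _

/-- CNU -/
theorem pf_CNU : T_CNT → T_KLI → T_IDX → T_CNU := by
  classical
  intro hCNT hKLI hIDX m B hB
  refine ⟨2 * (1 + B), by positivity, ?_⟩
  intro N _ b n a k hN hs sel vs hsel γ v x hx hv
  have hm : 1 ≤ m := by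
    rcases Nat.eq_zero_or_pos m with h0 | h0
    · exfalso
      subst h0
      obtain ⟨u, hu⟩ := hx
      have : Fact (1 < N) := ⟨by omega⟩
      have h1 : dt u x = 0 := by
        unfold dt
        simp
      rw [h1] at hu
      exact zero_ne_one hu
    · exact h0
  have hidx : (kl x).index ≠ 0 := by
    rw [(hKLI m N hm hN).1 x hx]
    omega
  obtain ⟨-, -, hmul, -, -⟩ := hIDX m
  have hgen := hsel.gen (kl x) hidx
  obtain ⟨n', k', hs'⟩ := hsel.sgl (kl x) hidx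
  obtain ⟨A, hA⟩ : ∃ A : ZM m, A = sel (kl x) := ⟨_, rfl⟩
  obtain ⟨w, hw⟩ : ∃ w : Fin m → ℝ, w = vs (kl x) := ⟨_, rfl⟩
  rw [← hA] at hgen hs'
  rw [← hw] at hs' ⊢
  obtain ⟨hc, -, -, -⟩ := hCNT m _ n' w k' hs'
  obtain ⟨S, hS⟩ : ∃ S : Set (ZM m), S = {γ' : ZM m | ac N γ' x = ac N γ x ∧
      ∀ i, rowN (vb (γ' i) b) ≤ B * rowN (vb (γ i) b)} := ⟨_, rfl⟩
  rw [← hS]
  obtain ⟨ρ, hρ⟩ : ∃ ρ : Fin m → ℝ, ρ = fun i => (1 + B) * v i := ⟨_, rfl⟩
  have hv0 : ∀ i, 0 ≤ v i := fun i => (rowN_nonneg' _).trans (hv i)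
  have hρ0 : ∀ i, 0 ≤ ρ i := fun i => by
    rw [hρ]
    have := hv0 i
    positivity
  have hex : ∀ γ' ∈ S, ∃ u : ZM m, γ' - γ = u * A := by
    intro γ' h
    rw [hS] at h
    refine (hmul A (γ' - γ)).1 fun i => ?_
    rw [hgen]
    have h1 : ∑ j, ((γ' i j : ℤ) : ZMod N) * x j = ∑ j, ((γ i j : ℤ) : ZMod N) * x j :=
      congrFun h.1 i
    have h2 : ∑ j, (((γ' - γ) i j : ℤ) : ZMod N) * x j = 0 := by
      simp only [Matrix.sub_apply, Int.cast_sub, sub_mul, Finset.sum_sub_distrib]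
      rw [h1, sub_self]
    exact h2
  obtain ⟨φ, hφ⟩ : ∃ φ : ZM m → ZM m, ∀ γ' ∈ S, γ' - γ = φ γ' * A := by
    refine ⟨fun γ' => if h : ∃ u : ZM m, γ' - γ = u * A then h.choose else 0, ?_⟩
    intro γ' h
    have h1 := hex γ' h
    dsimp only
    rw [dif_pos h1]
    exact h1.choose_spec
  have hfin : ∀ i, {c : Fin m → ℤ | rowN (vb c (cR A * b)) ≤ ρ i}.Finite :=
    fun i => (hc (ρ i) (hρ0 i)).1
  obtain ⟨t, ht⟩ : ∃ t : Finset (Fin m → Fin m → ℤ),
      t = Fintype.piFinset fun i => (hfin i).toFinset := ⟨_, rfl⟩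
  obtain ⟨ψ, hψ⟩ : ∃ ψ : ZM m → (Fin m → Fin m → ℤ), ψ = fun γ' i j => φ γ' i j := ⟨_, rfl⟩
  have hmap : ∀ γ' ∈ S, ψ γ' ∈ (t : Set (Fin m → Fin m → ℤ)) := by
    intro γ' h
    rw [ht, Finset.mem_coe, Fintype.mem_piFinset]
    intro i
    rw [Set.Finite.mem_toFinset, Set.mem_setOf_eq]
    have h1 : vb (ψ γ' i) (cR A * b) = vb (γ' i) b - vb (γ i) b := by
      have h0 := hφ γ' h
      have h00 : ψ γ' i = φ γ' i := by rw [hψ]
      rw [h00]
      have h5 : Matrix.vecMul (fun j => ((φ γ' i j : ℤ) : ℝ)) (cR A) =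
          (fun j => ((γ' i j : ℤ) : ℝ)) - fun j => ((γ i j : ℤ) : ℝ) := by
        funext j
        have h6 : (γ' - γ) i j = (φ γ' * A) i j := by rw [h0]
        rw [Matrix.sub_apply, Matrix.mul_apply] at h6
        have h7 : ((γ' i j - γ i j : ℤ) : ℝ) = ((∑ l, φ γ' i l * A l j : ℤ) : ℝ) := by
          rw [h6]
        push_cast at h7
        rw [Pi.sub_apply, h7]
        rfl
      unfold vb
      rw [← Matrix.vecMul_vecMul]
      rw [← Matrix.sub_vecMul]
      exact congrArg (fun z => Matrix.vecMul z b) h5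
    have h2 : rowN (vb (γ' i) b) ≤ B * rowN (vb (γ i) b) := by
      rw [hS] at h
      exact h.2 i
    rw [h1, hρ]
    have h4 := rowN_sub' (vb (γ' i) b) (vb (γ i) b)
    have h5 := mul_le_mul_of_nonneg_left (hv i) hB.le
    have h6 := hv i
    dsimp only
    linarith
  have hinj : Set.InjOn ψ S := by
    intro y hy z hz hyz
    have h1 := hφ y hy
    have h2 := hφ z hz
    have h3 : φ y = φ z := by
      ext i j
      have h4 := congrFun (congrFun hyz i) j
      rw [hψ] at h4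
      exact h4
    rw [h3] at h1
    have h4 : y - γ = z - γ := h1.trans h2.symm
    exact sub_left_injective h4
  refine ⟨Set.Finite.of_injOn hmap hinj (Finset.finite_toSet t), ?_⟩
  have h1 : S.ncard ≤ t.card := by
    rw [← Set.ncard_coe_finset]
    exact Set.ncard_le_ncard_of_injOn _ hmap hinj (Finset.finite_toSet t)
  have h2 : (t.card : ℝ) =
      ∏ i, (({c : Fin m → ℤ | rowN (vb c (cR A * b)) ≤ ρ i}.ncard : ℕ) : ℝ) := by
    rw [ht, Fintype.card_piFinset]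
    push_cast
    refine Finset.prod_congr rfl fun i _ => ?_
    rw [Set.ncard_eq_toFinset_card _ (hfin i)]
  have h3 : (S.ncard : ℝ) ≤ (t.card : ℝ) := by exact_mod_cast h1
  rw [h2] at h3
  refine h3.trans (Finset.prod_le_prod (fun i _ => Nat.cast_nonneg _) fun i _ => ?_)
  refine ((hc (ρ i) (hρ0 i)).2).trans (le_of_eq ?_)
  refine Finset.prod_congr rfl fun j _ => ?_
  rw [hρ]
  dsimp only
  rw [← mul_assoc]

end Pool.Agent.H1.GU
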